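import Pool.Agent.H95.GW.Inv

set_option autoImplicit false

namespace Pool.Agent.H95.GW

lemma sum_ginv (p q : Idx → ℚ) :
    ∑ s : Idx, ∑ t : Idx, p s * ginv s t * q t =
      p (0, 0) * q (1, 3) + p (0, 1) * q (1, 2) + p (0, 2) * q (1, 1) + p (0, 3) * q (1, 0) +
      p (1, 0) * q (0, 3) + p (1, 1) * q (0, 2) + p (1, 2) * q (0, 1) + p (1, 3) * q (0, 0) +
      p (1, 0) * q (1, 2) + p (1, 1) * q (1, 1) + p (1, 2) * q (1, 0) := by
  simp only [Fintype.sum_prod_type, Fin.sum_univ_two, Fin.sum_univ_four, ginv]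
  simp
  ring

/-- The convolution in the WDVV equation. -/
noncomputable def conv (N : ℤ × ℤ → Multiset Idx → ℚ) (A B : ℤ × ℤ) (x y z w : Idx) : ℚ :=
      N A {x, y, (0, 0)} * N B {(1, 3), z, w} + N A {x, y, (0, 1)} * N B {(1, 2), z, w} +
      N A {x, y, (0, 2)} * N B {(1, 1), z, w} + N A {x, y, (0, 3)} * N B {(1, 0), z, w} +
      N A {x, y, (1, 0)} * N B {(0, 3), z, w} + N A {x, y, (1, 1)} * N B {(0, 2), z, w} +
      N A {x, y, (1, 2)} * N B {(0, 1), z, w} + N A {x, y, (1, 3)} * N B {(0, 0), z, w} +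
      N A {x, y, (1, 0)} * N B {(1, 2), z, w} + N A {x, y, (1, 1)} * N B {(1, 1), z, w} +
      N A {x, y, (1, 2)} * N B {(1, 0), z, w}

variable {N : ℤ × ℤ → Multiset Idx → ℚ}

lemma sum_eq_conv (N : ℤ × ℤ → Multiset Idx → ℚ) (d a : ℕ) (x y z w : Idx) :
    (∑ i ∈ Finset.range (d + 1), ∑ j ∈ Finset.range (a + 1), ∑ s : Idx, ∑ t : Idx,
      N ((i : ℤ), (j : ℤ)) {x, y, s} * pairing⁻¹ s t *
        N ((d : ℤ) - i, (a : ℤ) - j) {t, z, w}) =
    ∑ i ∈ Finset.range (d + 1), ∑ j ∈ Finset.range (a + 1),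
      conv N ((i : ℤ), (j : ℤ)) ((d : ℤ) - i, (a : ℤ) - j) x y z w := by
  simp only [pairing_inv]
  simp only [conv, sum_ginv (fun s => N _ {x, y, s}) (fun t => N _ {t, z, w})]

lemma GenusZero.wdvv' (h : GenusZero N) (d a : ℕ) (hd : d ≤ 2) (ha : a ≤ 1) (x y z w : Idx) :
    ∑ i ∈ Finset.range (d + 1), ∑ j ∈ Finset.range (a + 1),
      conv N ((i : ℤ), (j : ℤ)) ((d : ℤ) - i, (a : ℤ) - j) x y z w =
    ∑ i ∈ Finset.range (d + 1), ∑ j ∈ Finset.range (a + 1),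
      conv N ((i : ℤ), (j : ℤ)) ((d : ℤ) - i, (a : ℤ) - j) x z y w := by
  have := h.wdvv d a hd ha x y z w
  rwa [sum_eq_conv, sum_eq_conv] at this

lemma GenusZero.T_zero (h : GenusZero N) (A : ℤ × ℤ) (x y z : Idx)
    (hne : deg x + (deg y + deg z) ≠ 4 + (4 * A.2 - A.1)) : N A {x, y, z} = 0 := by
  by_contra hcon
  apply hne
  have := h.degree A _ hcon
  simp only [Multiset.insert_eq_cons, Multiset.map_cons, Multiset.map_singleton,
    Multiset.sum_cons, Multiset.sum_singleton, Multiset.card_cons, Multiset.card_singleton] at this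
  push_cast at this
  linarith

lemma T_comm12 (A : ℤ × ℤ) (x y z : Idx) : N A {x, y, z} = N A {y, x, z} := by
  simp only [Multiset.insert_eq_cons]
  rw [Multiset.cons_swap]

lemma T_comm23 (A : ℤ × ℤ) (x y z : Idx) : N A {x, y, z} = N A {x, z, y} := by
  simp only [Multiset.insert_eq_cons]
  congr 2
  exact Multiset.pair_comm y z

lemma P_comm (A : ℤ × ℤ) (x y : Idx) : N A {x, y} = N A {y, x} := by
  congr 1
  exact Multiset.pair_comm x y

lemma GenusZero.zero' (h : GenusZero N) (x y z : Idx) : N (0, 0) {x, y, z} =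
    integral ((x.1 : ℕ) + (y.1 : ℕ) + (z.1 : ℕ)) ((x.2 : ℕ) + (y.2 : ℕ) + (z.2 : ℕ)) :=
  h.zero x y z

lemma GenusZero.U1 (h : GenusZero N) (A : ℤ × ℤ) (hA : A ≠ 0) (y z : Idx) :
    N A {(0, 0), y, z} = 0 := h.unit A hA _

lemma GenusZero.U2 (h : GenusZero N) (A : ℤ × ℤ) (hA : A ≠ 0) (y z : Idx) :
    N A {y, (0, 0), z} = 0 := by rw [T_comm12 (N := N)]; exact h.U1 A hA _ _

lemma GenusZero.U3 (h : GenusZero N) (A : ℤ × ℤ) (hA : A ≠ 0) (y z : Idx) :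
    N A {y, z, (0, 0)} = 0 := by rw [T_comm23 (N := N)]; exact h.U2 A hA _ _

lemma GenusZero.F1 (h : GenusZero N) (A : ℤ × ℤ) (hA : A ≠ 0) (y z : Idx) :
    N A {(1, 0), y, z} = A.1 * N A {y, z} := h.divF A hA _

lemma GenusZero.F2 (h : GenusZero N) (A : ℤ × ℤ) (hA : A ≠ 0) (y z : Idx) :
    N A {y, (1, 0), z} = A.1 * N A {y, z} := by rw [T_comm12 (N := N)]; exact h.F1 A hA _ _

lemma GenusZero.F3 (h : GenusZero N) (A : ℤ × ℤ) (hA : A ≠ 0) (y z : Idx) :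
    N A {y, z, (1, 0)} = A.1 * N A {y, z} := by rw [T_comm23 (N := N)]; exact h.F2 A hA _ _

lemma GenusZero.D1 (h : GenusZero N) (A : ℤ × ℤ) (hA : A ≠ 0) (y z : Idx) :
    N A {(0, 1), y, z} = (A.2 - A.1) * N A {y, z} := h.divD A hA _

lemma GenusZero.D2 (h : GenusZero N) (A : ℤ × ℤ) (hA : A ≠ 0) (y z : Idx) :
    N A {y, (0, 1), z} = (A.2 - A.1) * N A {y, z} := by rw [T_comm12 (N := N)]; exact h.D1 A hA _ _

lemma GenusZero.D3 (h : GenusZero N) (A : ℤ × ℤ) (hA : A ≠ 0) (y z : Idx) :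
    N A {y, z, (0, 1)} = (A.2 - A.1) * N A {y, z} := by rw [T_comm23 (N := N)]; exact h.D2 A hA _ _

lemma GenusZero.PF1 (h : GenusZero N) (A : ℤ × ℤ) (hA : A ≠ 0) (z : Idx) :
    N A {(1, 0), z} = A.1 * N A {z} := h.divF A hA _

lemma GenusZero.PF2 (h : GenusZero N) (A : ℤ × ℤ) (hA : A ≠ 0) (z : Idx) :
    N A {z, (1, 0)} = A.1 * N A {z} := by rw [P_comm (N := N)]; exact h.PF1 A hA _

lemma GenusZero.PD1 (h : GenusZero N) (A : ℤ × ℤ) (hA : A ≠ 0) (z : Idx) :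
    N A {(0, 1), z} = (A.2 - A.1) * N A {z} := h.divD A hA _

lemma GenusZero.PD2 (h : GenusZero N) (A : ℤ × ℤ) (hA : A ≠ 0) (z : Idx) :
    N A {z, (0, 1)} = (A.2 - A.1) * N A {z} := by rw [P_comm (N := N)]; exact h.PD1 A hA _

lemma GenusZero.BF (h : GenusZero N) : N (1, 0) {(1, 0)} = 1 := by
  have := h.divF (1, 0) (by decide) 0
  rw [h.countB] at this
  simpa [eF, eD] using this

lemma GenusZero.BD (h : GenusZero N) : N (1, 0) {(0, 1)} = -1 := by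
  have := h.divD (1, 0) (by decide) 0
  rw [h.countB] at this
  simpa [eF, eD] using this

end Pool.Agent.H95.GW
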