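import Pool.Agent.H95.GW.Wdvv

set_option autoImplicit false
set_option linter.unusedSimpArgs false

namespace Pool.Agent.H95.GW

variable {N : ℤ × ℤ → Multiset Idx → ℚ}

lemma GenusZero.quarter (h : GenusZero N) : N (2, 1) {ePt} = 1 / 4 := by
  have h0 := h.countLine
  have h1 := h.w11 (0, 1) (1, 0) (0, 1) (1, 3)
  have h2 := h.w11 (0, 2) (1, 0) (0, 1) (0, 3)
  have h2' := h.w11 (0, 2) (1, 0) (0, 1) (1, 2)
  have h3 := h.w21 (1, 0) (1, 0) (0, 1) (0, 3)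
  have h3' := h.w21 (1, 0) (1, 0) (0, 1) (1, 2)
  have h4 := h.w21 (0, 1) (1, 0) (0, 1) (1, 2)
  have h5 := h.w21 (0, 2) (1, 0) (0, 1) (1, 1)
  rw [P_comm (N := N)] at h0
  simp (disch := decide) only [conv, h.T_zero, h.U1, h.U2, h.U3, mul_zero, zero_mul, add_zero,
    zero_add] at h1 h2 h2' h3 h3' h4 h5
  simp (disch := decide) only [h.F1, h.F2, h.F3, h.D1, h.D2, h.D3, h.PF1, h.PF2, h.PD1, h.PD2,
    h.BF, h.BD, h.zero'] at h1 h2 h2' h3 h3' h4 h5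
  rw [P_comm (N := N) (1, 1) (0, 3) (1, 2)] at h2'
  simp only [P_comm (N := N) (2, 1) (1, 2) (1, 1), P_comm (N := N) (2, 1) (0, 3) (1, 1),
    P_comm (N := N) (1, 1) (0, 3) (1, 2)] at h3' h4 h5
  simp only [ePt, eD3] at h0 ⊢
  rw [P_comm (N := N)] at h0
  norm_num [integral] at h0 h1 h2 h2' h3 h3' h4 h5
  linarith

end Pool.Agent.H95.GW
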