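import Pool.Agent.H95.GW.TZ

set_option autoImplicit false

namespace Pool.Agent.H95.GW

/-- Sixteen times the convolution, from the table `T3`. -/
def convZ (c c' x y z w : ℕ) : ℤ :=
  T3 c x y 0 * T3 c' 7 z w + T3 c x y 1 * T3 c' 6 z w +
  T3 c x y 2 * T3 c' 5 z w + T3 c x y 3 * T3 c' 4 z w +
  T3 c x y 4 * T3 c' 3 z w + T3 c x y 5 * T3 c' 2 z w +
  T3 c x y 6 * T3 c' 1 z w + T3 c x y 7 * T3 c' 0 z w +
  T3 c x y 4 * T3 c' 6 z w + T3 c x y 5 * T3 c' 5 z w +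
  T3 c x y 6 * T3 c' 4 z w

/-- The degree of the basis element number `k`. -/
def dg (k : ℕ) : ℕ := k / 4 + k % 4

lemma chk00 : ∀ x < 8, ∀ y < 8, ∀ z < 8, ∀ w < 8, (z ≤ y ∨ dg x + dg y + dg z + dg w ≠ 4) ∨
    convZ 0 0 x y z w = convZ 0 0 x z y w := by
  decide +kernel

lemma chk10 : ∀ x < 8, ∀ y < 8, ∀ z < 8, ∀ w < 8, (z ≤ y ∨ dg x + dg y + dg z + dg w ≠ 3) ∨
    convZ 0 1 x y z w + convZ 1 0 x y z w = convZ 0 1 x z y w + convZ 1 0 x z y w := by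
  decide +kernel

lemma chk20 : ∀ x < 8, ∀ y < 8, ∀ z < 8, ∀ w < 8, (z ≤ y ∨ dg x + dg y + dg z + dg w ≠ 2) ∨
    convZ 0 2 x y z w + convZ 1 1 x y z w + convZ 2 0 x y z w =
      convZ 0 2 x z y w + convZ 1 1 x z y w + convZ 2 0 x z y w := by
  decide +kernel

lemma chk01 : ∀ x < 8, ∀ y < 8, ∀ z < 8, ∀ w < 8, (z ≤ y ∨ dg x + dg y + dg z + dg w ≠ 8) ∨
    convZ 0 3 x y z w + convZ 3 0 x y z w = convZ 0 3 x z y w + convZ 3 0 x z y w := by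
  decide +kernel

lemma chk11 : ∀ x < 8, ∀ y < 8, ∀ z < 8, ∀ w < 8, (z ≤ y ∨ dg x + dg y + dg z + dg w ≠ 7) ∨
    convZ 0 4 x y z w + convZ 3 1 x y z w + (convZ 1 3 x y z w + convZ 4 0 x y z w) =
      convZ 0 4 x z y w + convZ 3 1 x z y w + (convZ 1 3 x z y w + convZ 4 0 x z y w) := by
  decide +kernel

lemma chk21 : ∀ x < 8, ∀ y < 8, ∀ z < 8, ∀ w < 8, (z ≤ y ∨ dg x + dg y + dg z + dg w ≠ 6) ∨
    convZ 0 5 x y z w + convZ 3 2 x y z w + (convZ 1 4 x y z w + convZ 4 1 x y z w) +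
      (convZ 2 3 x y z w + convZ 5 0 x y z w) =
    convZ 0 5 x z y w + convZ 3 2 x z y w + (convZ 1 4 x z y w + convZ 4 1 x z y w) +
      (convZ 2 3 x z y w + convZ 5 0 x z y w) := by
  decide +kernel

end Pool.Agent.H95.GW
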