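import Mathlib

/-!
Definitions for MP_f9c44b_gt.

`X` is the projective bundle of the one-dimensional subspaces of the rank-four bundle
`O + O(-1) + O(-1) + O(-1)` over the projective line: a compact symplectic manifold of real
dimension `8` (`n = 4`).
`F` is the class of a fibre (a copy of projective 3-space) and `D` the class of the divisor on which
one of the three coordinates of `O(-1)` vanishes. `B` is the section given by the summand `O`, and
`f` is the class of a line in a fibre. So `F·B = 1`, `F·f = 0`, `D·B = -1`, `D·f = 1`,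
`c₁ = 2 F + 3 D + (D + F)`, `c₁(B) = -1`, `c₁(f) = 4`, and `H²-classes` satisfy `F² = 0`,
`D³ (D + F) = 0`.
-/

set_option autoImplicit false

namespace Pool.Agent.H95.GW

/-- The basis `F^i D^j`, `i = 0, 1`, `j = 0, 1, 2, 3`, of the (even, free) cohomology ring
`ℤ[F, D] / (F², D³ (D + F))`. -/
abbrev Idx := Fin 2 × Fin 4

/-- Complex degree of `F^i D^j`. -/
def deg (x : Idx) : ℤ := (x.1 : ℕ) + (x.2 : ℕ)

/-- The integral over `X` of `F^i D^j` for all `i, j`: it is `1` for `F D³`, `-1` for `D⁴` and `0`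
otherwise. -/
def integral (i j : ℕ) : ℚ := if i = 1 ∧ j = 3 then 1 else if i = 0 ∧ j = 4 then -1 else 0

/-- The intersection pairing. -/
def pairing : Matrix Idx Idx ℚ := fun x y =>
  integral ((x.1 : ℕ) + (y.1 : ℕ)) ((x.2 : ℕ) + (y.2 : ℕ))

/-- `1`, `F`, `D`, the class `D³` (Poincare dual of the curve `B`) and the class `F D³` of a
point. -/
def eOne : Idx := (0, 0)
def eF : Idx := (1, 0)
def eD : Idx := (0, 1)
def eD3 : Idx := (0, 3)
def ePt : Idx := (1, 3)

/-- The standard properties (Kontsevich-Manin axioms) of the genus-zero Gromov-Witten invariants of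
`X`, and two counts. `N (d, a) μ` is the invariant of the class `d B + a f` with the inputs `μ`, a
multiset of elements of the basis. -/
structure GenusZero (N : ℤ × ℤ → Multiset Idx → ℚ) : Prop where
  /-- Only effective classes have non-zero invariants. -/
  effective : ∀ A μ, ¬ (0 ≤ A.1 ∧ 0 ≤ A.2) → N A μ = 0
  /-- The sum of the degrees of the inputs is `n - 3 + c₁(A) + k`. -/
  degree : ∀ A μ, N A μ ≠ 0 → (μ.map deg).sum = 1 + (4 * A.2 - A.1) + Multiset.card μ
  /-- Class zero, three inputs: the integral of the product. -/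
  zero : ∀ x y z : Idx, N 0 {x, y, z} =
    integral ((x.1 : ℕ) + (y.1 : ℕ) + (z.1 : ℕ)) ((x.2 : ℕ) + (y.2 : ℕ) + (z.2 : ℕ))
  /-- The input `1`. -/
  unit : ∀ A, A ≠ 0 → ∀ μ, N A (eOne ::ₘ μ) = 0
  /-- The divisor equation for `F`. -/
  divF : ∀ A, A ≠ 0 → ∀ μ, N A (eF ::ₘ μ) = A.1 * N A μ
  /-- The divisor equation for `D`. -/
  divD : ∀ A, A ≠ 0 → ∀ μ, N A (eD ::ₘ μ) = (A.2 - A.1) * N A μ
  /-- The WDVV equation with four inputs (associativity of the small quantum product) in the classes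
  `d B + a f` with `d ≤ 2` and `a ≤ 1`; it holds in all classes, only these are needed. -/
  wdvv : ∀ (d a : ℕ), d ≤ 2 → a ≤ 1 → ∀ x y z w : Idx,
    ∑ i ∈ Finset.range (d + 1), ∑ j ∈ Finset.range (a + 1), ∑ s : Idx, ∑ t : Idx,
      N ((i : ℤ), (j : ℤ)) {x, y, s} * pairing⁻¹ s t * N ((d : ℤ) - i, (a : ℤ) - j) {t, z, w} =
    ∑ i ∈ Finset.range (d + 1), ∑ j ∈ Finset.range (a + 1), ∑ s : Idx, ∑ t : Idx,
      N ((i : ℤ), (j : ℤ)) {x, z, s} * pairing⁻¹ s t * N ((d : ℤ) - i, (a : ℤ) - j) {t, y, w}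
  /-- `B` is the only curve in its class, and it is rigid with normal bundle `O(-1)³`. -/
  countB : N (1, 0) 0 = 1
  /-- One line in a fibre passes through a given point and meets `B`. -/
  countLine : N (0, 1) {eD3, ePt} = 1

/-- Decorated graphs: vertices `Fin nV`, a finite multiset of pairs of vertices (loops allowed), a
genus and a class in `H₂(X)` at each vertex. The group `H` is `H₂(X)`. -/
structure DecGraph (H : Type) where
  nV : ℕ
  edges : Multiset (Sym2 (Fin nV))
  genus : Fin nV → ℕ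
  cls : Fin nV → H

namespace DecGraph

variable {H : Type}

/-- Connected, with at least one vertex. -/
def Connected (G : DecGraph H) : Prop :=
  0 < G.nV ∧ ∀ u v : Fin G.nV, Relation.ReflTransGen (fun a b => s(a, b) ∈ G.edges) u v

/-- The genus `1 + |E| - |V| + ∑ genus v`. -/
def totalGenus (G : DecGraph H) : ℤ :=
  1 + Multiset.card G.edges - G.nV + ∑ v, (G.genus v : ℤ)

/-- The graph `Γ₀(g, A)`: one vertex, no edge. -/
def single (g : ℕ) (A : H) : DecGraph H := ⟨1, 0, fun _ => g, fun _ => A⟩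

end DecGraph

/-- The set `P([ω])`: connected graphs all of whose vertices are decorated by elements of
`𝒜 = 𝒜([ω])` (a set of pairs of a genus and a non-zero class). -/
def InP {H : Type} [AddCommGroup H] (𝒜 : Set (ℕ × H)) (G : DecGraph H) : Prop :=
  G.Connected ∧ ∀ v, G.cls v ≠ 0 ∧ (G.genus v, G.cls v) ∈ 𝒜

/-- The set of the pairs `(Γ, m)` over which the sum in (E1) extends. -/
def Pst {H : Type} [AddCommGroup H] (n : ℤ) (𝒜 : Set (ℕ × H)) (g : ℕ) (A : H) :
    Set (Σ G : DecGraph H, Fin G.nV → ℕ) :=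
  {p | InP 𝒜 p.1 ∧ (∀ v, 0 < p.2 v) ∧ p.1.totalGenus ≤ g ∧
    (Multiset.card p.1.edges : ℤ) ≤ (n - 3) * (g - p.1.totalGenus) ∧
    ∑ v, p.2 v • p.1.cls v = A ∧
    p ≠ ⟨DecGraph.single g A, fun _ => 1⟩}

/-- Condition (E1): `GW g A = E g A + ∑ EΓ g Γ m`, the sum over `(Γ, m)` in `Pst n 𝒜 g A`, for all
`(g, A)` in `𝒜` and all non-empty inputs. Functionals are given by their values on the multisets
of elements of a basis `ι` of the (even, free) cohomology. -/
def E1 {H ι : Type} [AddCommGroup H] (n : ℤ) (𝒜 : Set (ℕ × H)) (GW : ℕ → H → Multiset ι → ℚ)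
    (E : ℕ → H → Multiset ι → ℤ)
    (EG : ℕ → (Σ G : DecGraph H, Fin G.nV → ℕ) → Multiset ι → ℚ) : Prop :=
  ∀ g A, (g, A) ∈ 𝒜 → ∀ μ : Multiset ι, μ ≠ 0 →
    GW g A μ = E g A μ + ∑ᶠ p ∈ Pst n 𝒜 g A, EG g p μ

end Pool.Agent.H95.GW
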