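import Pool.Agent.H95.GW.Model
import Pool.Agent.H95.GW.Check

set_option autoImplicit false

namespace Pool.Agent.H95.GW

lemma conv_N0 (A B : ℤ × ℤ) (c c' : ℕ)
    (hA : ∀ x y z : Idx, N0 A {x, y, z} = T3 c (code x) (code y) (code z) / 4)
    (hB : ∀ x y z : Idx, N0 B {x, y, z} = T3 c' (code x) (code y) (code z) / 4)
    (x y z w : Idx) :
    conv N0 A B x y z w = (convZ c c' (code x) (code y) (code z) (code w) : ℚ) / 16 := by
  unfold conv convZ
  simp only [hA, hB]
  have e00 : code (0, 0) = 0 := rfl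
  have e01 : code (0, 1) = 1 := rfl
  have e02 : code (0, 2) = 2 := rfl
  have e03 : code (0, 3) = 3 := rfl
  have e10 : code (1, 0) = 4 := rfl
  have e11 : code (1, 1) = 5 := rfl
  have e12 : code (1, 2) = 6 := rfl
  have e13 : code (1, 3) = 7 := rfl
  simp only [e00, e01, e02, e03, e10, e11, e12, e13]
  push_cast
  ring

lemma code_lt (x : Idx) : code x < 8 := by
  unfold code
  have h1 := x.1.2
  have h2 := x.2.2
  omega

lemma tab_mem {A : ℤ × ℤ} {m : Multiset Idx} (h : tab A m ≠ 0) :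
    ∃ e ∈ tabL, e.1 = A ∧ e.2.1 = m := by
  by_contra hcon
  push Not at hcon
  apply h
  unfold tab
  apply List.sum_eq_zero
  intro q hq
  rw [List.mem_map] at hq
  obtain ⟨e, he, rfl⟩ := hq
  rw [if_neg]
  rintro ⟨h1, h2⟩
  exact hcon e he h1 h2

lemma tabL_eff : ∀ e ∈ tabL, 0 ≤ e.1.1 ∧ 0 ≤ e.1.2 := by
  decide +kernel

lemma tabL_deg : ∀ e ∈ tabL, (e.2.1.map fun x => deg x - 1).sum = 1 + (4 * e.1.2 - e.1.1) := by
  decide +kernel

lemma tabL_one : ∀ e ∈ tabL, eOne ∉ e.2.1 := by
  decide +kernel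

lemma nd_cons_F (μ : Multiset Idx) : nd (eF ::ₘ μ) = nd μ := by
  unfold nd
  rw [Multiset.filter_cons_of_neg]
  simp

lemma nd_cons_D (μ : Multiset Idx) : nd (eD ::ₘ μ) = nd μ := by
  unfold nd
  rw [Multiset.filter_cons_of_neg]
  simp

lemma nd_sum (μ : Multiset Idx) :
    ((nd μ).map fun x => deg x - 1).sum = (μ.map deg).sum - Multiset.card μ := by
  induction μ using Multiset.induction_on with
  | empty => simp [nd]
  | cons x s ih =>
    rw [Multiset.map_cons, Multiset.sum_cons, Multiset.card_cons]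
    by_cases h : x ≠ eF ∧ x ≠ eD
    · have h1 : nd (x ::ₘ s) = x ::ₘ nd s := Multiset.filter_cons_of_pos _ h
      rw [h1, Multiset.map_cons, Multiset.sum_cons, ih]
      push_cast
      ring
    · have h1 : nd (x ::ₘ s) = nd s := Multiset.filter_cons_of_neg _ h
      have h2 : deg x = 1 := by
        have h3 : x = eF ∨ x = eD := by tauto
        rcases h3 with h3 | h3 <;> rw [h3] <;> decide
      rw [h1, ih, h2]
      push_cast
      ring

lemma integral_ne {i j : ℕ} (h : integral i j ≠ 0) : i + j = 4 := by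
  unfold integral at h
  split_ifs at h with h1 h2
  · omega
  · omega
  · exact absurd rfl h

lemma N0_eff (A : ℤ × ℤ) (μ : Multiset Idx) (h : ¬ (0 ≤ A.1 ∧ 0 ≤ A.2)) : N0 A μ = 0 := by
  unfold N0
  have hA : A ≠ 0 := by
    rintro rfl
    exact h (by decide)
  rw [if_neg hA]
  by_cases ht : tab A (nd μ) = 0
  · rw [ht, mul_zero]
  · obtain ⟨e, he, h1, _⟩ := tab_mem ht
    exact absurd (h1 ▸ tabL_eff e he) h

lemma deg_sum (μ : Multiset Idx) : (μ.map deg).sum =
    ((μ.map fun x => (x.1 : ℕ)).sum : ℤ) + ((μ.map fun x => (x.2 : ℕ)).sum : ℤ) := by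
  induction μ using Multiset.induction_on with
  | empty => simp
  | cons x s ih =>
    rw [Multiset.map_cons, Multiset.sum_cons, ih, Multiset.map_cons, Multiset.sum_cons,
      Multiset.map_cons, Multiset.sum_cons]
    unfold deg
    push_cast
    ring

lemma N0_deg (A : ℤ × ℤ) (μ : Multiset Idx) (h : N0 A μ ≠ 0) :
    (μ.map deg).sum = 1 + (4 * A.2 - A.1) + Multiset.card μ := by
  unfold N0 at h
  by_cases hA : A = 0
  · rw [if_pos hA] at h
    by_cases hc : Multiset.card μ = 3
    · rw [if_pos hc] at h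
      have h1 := integral_ne h
      rw [deg_sum, hc, hA]
      have h2 : ((μ.map fun x => (x.1 : ℕ)).sum : ℤ) + ((μ.map fun x => (x.2 : ℕ)).sum : ℤ) = 4 := by
        exact_mod_cast h1
      rw [h2]
      rfl
    · rw [if_neg hc] at h
      exact absurd rfl h
  · rw [if_neg hA] at h
    have ht : tab A (nd μ) ≠ 0 := by
      intro h0
      rw [h0, mul_zero] at h
      exact h rfl
    obtain ⟨e, he, h1, h2⟩ := tab_mem ht
    have h3 := tabL_deg e he
    rw [h1, h2, nd_sum] at h3
    linarith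

lemma N0_unit (A : ℤ × ℤ) (hA : A ≠ 0) (μ : Multiset Idx) : N0 A (eOne ::ₘ μ) = 0 := by
  unfold N0
  rw [if_neg hA]
  by_cases ht : tab A (nd (eOne ::ₘ μ)) = 0
  · rw [ht, mul_zero]
  · obtain ⟨e, he, _, h2⟩ := tab_mem ht
    exfalso
    apply tabL_one e he
    rw [h2]
    unfold nd
    rw [Multiset.mem_filter]
    exact ⟨Multiset.mem_cons_self _ _, by decide⟩

lemma N0_divF (A : ℤ × ℤ) (hA : A ≠ 0) (μ : Multiset Idx) :
    N0 A (eF ::ₘ μ) = A.1 * N0 A μ := by
  unfold N0
  rw [if_neg hA, if_neg hA, nd_cons_F, Multiset.count_cons_self,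
    Multiset.count_cons_of_ne (by decide), pow_succ]
  ring

lemma N0_divD (A : ℤ × ℤ) (hA : A ≠ 0) (μ : Multiset Idx) :
    N0 A (eD ::ₘ μ) = (A.2 - A.1) * N0 A μ := by
  unfold N0
  rw [if_neg hA, if_neg hA, nd_cons_D, Multiset.count_cons_self,
    Multiset.count_cons_of_ne (by decide), pow_succ]
  ring

lemma N0_zero (x y z : Idx) : N0 0 {x, y, z} =
    integral ((x.1 : ℕ) + (y.1 : ℕ) + (z.1 : ℕ)) ((x.2 : ℕ) + (y.2 : ℕ) + (z.2 : ℕ)) := by
  unfold N0
  rw [if_pos rfl, if_pos (by simp)]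
  simp only [Multiset.insert_eq_cons, Multiset.map_cons, Multiset.map_singleton,
    Multiset.sum_cons, Multiset.sum_singleton]
  rw [add_assoc, add_assoc]

lemma N0_prod (A B : ℤ × ℤ) (x y z w s t : Idx) (hst : deg s + deg t = 4)
    (hne : deg x + deg y + deg z + deg w ≠
      4 + (4 * A.2 - A.1) + (4 * B.2 - B.1)) :
    N0 A {x, y, s} * N0 B {t, z, w} = 0 := by
  by_contra hcon
  have h1 := N0_deg A {x, y, s} (left_ne_zero_of_mul hcon)
  have h2 := N0_deg B {t, z, w} (right_ne_zero_of_mul hcon)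
  simp only [Multiset.insert_eq_cons, Multiset.map_cons, Multiset.map_singleton,
    Multiset.sum_cons, Multiset.sum_singleton, Multiset.card_cons,
    Multiset.card_singleton] at h1 h2
  push_cast at h1 h2
  apply hne
  linarith

lemma conv_N0_zero (A B : ℤ × ℤ) (x y z w : Idx)
    (hne : deg x + deg y + deg z + deg w ≠
      4 + (4 * A.2 - A.1) + (4 * B.2 - B.1)) : conv N0 A B x y z w = 0 := by
  unfold conv
  rw [N0_prod A B x y z w _ _ (by decide) hne, N0_prod A B x y z w _ _ (by decide) hne,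
    N0_prod A B x y z w _ _ (by decide) hne, N0_prod A B x y z w _ _ (by decide) hne,
    N0_prod A B x y z w _ _ (by decide) hne, N0_prod A B x y z w _ _ (by decide) hne,
    N0_prod A B x y z w _ _ (by decide) hne, N0_prod A B x y z w _ _ (by decide) hne,
    N0_prod A B x y z w _ _ (by decide) hne, N0_prod A B x y z w _ _ (by decide) hne,
    N0_prod A B x y z w _ _ (by decide) hne]
  norm_num

lemma dg_code : ∀ x : Idx, ((dg (code x) : ℕ) : ℤ) = deg x := by
  decide +kernel

lemma code_inj : ∀ x y : Idx, code x = code y → x = y := by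
  decide +kernel

end Pool.Agent.H95.GW
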