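import Pool.Agent.H95.GW.Defs

set_option autoImplicit false

namespace Pool.Agent.H95.GW

variable {H : Type}

lemma DecGraph.Connected.le {G : DecGraph H} (h : G.Connected) :
    G.nV ≤ Multiset.card G.edges + 1 := by
  classical
  let S : SimpleGraph (Fin G.nV) := SimpleGraph.fromEdgeSet {e | e ∈ G.edges}
  have : Nonempty (Fin G.nV) := ⟨⟨0, h.1⟩⟩
  have hS : S.Connected := by
    refine ⟨fun u v => ?_⟩
    have huv := h.2 u v
    induction huv with
    | refl => exact SimpleGraph.Reachable.refl _
    | tail _ hbc ih =>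
      rename_i b c _
      by_cases hne : b = c
      · exact hne ▸ ih
      · refine ih.trans (SimpleGraph.Adj.reachable ?_)
        rw [SimpleGraph.fromEdgeSet_adj]
        exact ⟨hbc, hne⟩
  have h1 := hS.card_vert_le_card_edgeSet_add_one
  rw [Nat.card_eq_fintype_card, Fintype.card_fin] at h1
  have h2 : Nat.card S.edgeSet ≤ Multiset.card G.edges := by
    have h3 : S.edgeSet ⊆ (G.edges.toFinset : Set (Sym2 (Fin G.nV))) := by
      intro e he
      rw [SimpleGraph.edgeSet_fromEdgeSet] at he
      simpa using he.1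
    calc Nat.card S.edgeSet ≤ Nat.card (G.edges.toFinset : Set (Sym2 (Fin G.nV))) :=
          Nat.card_mono (Finset.finite_toSet _) h3
      _ = G.edges.toFinset.card := by
          rw [Nat.card_coe_set_eq, Set.ncard_coe_finset]
      _ ≤ Multiset.card G.edges := Multiset.toFinset_card_le _
  omega

lemma DecGraph.Connected.genus_nonneg {G : DecGraph H} (h : G.Connected) :
    ∑ v, (G.genus v : ℤ) ≤ G.totalGenus := by
  have := h.le
  unfold DecGraph.totalGenus
  omega

/-- For `g = 0` and a class which is not a proper multiple, the sum in (E1) is empty. -/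
lemma Pst_empty [AddCommGroup H] (n : ℤ) (𝒜 : Set (ℕ × H)) (A : H)
    (hA : ∀ (m : ℕ) (A' : H), m • A' = A → 0 < m → m = 1) : Pst n 𝒜 0 A = ∅ := by
  rw [Set.eq_empty_iff_forall_notMem]
  rintro ⟨G, m⟩ ⟨⟨hc, hcls⟩, hm, hg, hE, hsum, hne⟩
  have h1 := hc.genus_nonneg
  have h2 := hc.le
  have h3 : 0 ≤ ∑ v, (G.genus v : ℤ) := Finset.sum_nonneg fun v _ => Int.natCast_nonneg _
  simp only [Nat.cast_zero] at hg hE
  dsimp only at h1 h2 h3 hg hE hsum hm hc hcls
  have h4 : G.totalGenus = 0 := le_antisymm hg (h3.trans h1)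
  rw [h4] at hE
  have h5 : Multiset.card G.edges = 0 := by
    have : (Multiset.card G.edges : ℤ) ≤ 0 := by simpa using hE
    omega
  have h6 : ∑ v, (G.genus v : ℤ) = 0 := by linarith
  have h7 : G.nV = 1 := by
    have := hc.1
    omega
  obtain ⟨nV, edges, genus, cls⟩ := G
  simp only at h5 h6 h7 hsum hm hne hcls
  subst h7
  have h8 : edges = 0 := Multiset.card_eq_zero.1 h5
  subst h8
  have h9 : genus = fun _ => 0 := by
    funext v
    have : v = 0 := Subsingleton.elim _ _
    subst this
    simpa using h6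
  subst h9
  have h10 : m 0 • cls 0 = A := by simpa using hsum
  have h11 : m 0 = 1 := hA _ _ h10 (hm 0)
  have h12 : cls 0 = A := by simpa [h11] using h10
  have h13 : cls = fun _ => A := by
    funext v
    have : v = 0 := Subsingleton.elim _ _
    rw [this, h12]
  subst h13
  apply hne
  unfold DecGraph.single
  congr 1
  funext v
  have : v = 0 := Subsingleton.elim _ _
  rw [this]
  exact h11

end Pool.Agent.H95.GW
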