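import Pool.Agent.H95.GW.Defs

set_option autoImplicit false

namespace Pool.Agent.H95.GW

/-- The inverse of the pairing. -/
def ginv : Matrix Idx Idx ℚ := fun x y =>
  (if (x.1 : ℕ) + (y.1 : ℕ) = 1 ∧ (x.2 : ℕ) + (y.2 : ℕ) = 3 then 1 else 0) +
  (if (x.1 : ℕ) + (y.1 : ℕ) = 2 ∧ (x.2 : ℕ) + (y.2 : ℕ) = 2 then 1 else 0)

lemma pairing_mul_ginv : pairing * ginv = 1 := by
  ext x y
  rw [Matrix.mul_apply]
  revert x y
  decide +kernel

lemma pairing_inv : pairing⁻¹ = ginv := Matrix.inv_eq_right_inv pairing_mul_ginv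

end Pool.Agent.H95.GW
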