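import Pool.Agent.H95.GW.Table

set_option autoImplicit false

namespace Pool.Agent.H95.GW

/-- The table, as a function. -/
def tab (A : ℤ × ℤ) (m : Multiset Idx) : ℚ :=
  (tabL.map fun e => if e.1 = A ∧ e.2.1 = m then e.2.2 else 0).sum

/-- The inputs other than `F` and `D`. -/
def nd (μ : Multiset Idx) : Multiset Idx := μ.filter fun x => x ≠ eF ∧ x ≠ eD

/-- A system of numbers with the properties `GenusZero`. -/
def N0 (A : ℤ × ℤ) (μ : Multiset Idx) : ℚ :=
  if A = 0 then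
    (if Multiset.card μ = 3 then
      integral (μ.map fun x => (x.1 : ℕ)).sum (μ.map fun x => (x.2 : ℕ)).sum else 0)
  else (A.1 : ℚ) ^ μ.count eF * ((A.2 : ℚ) - A.1) ^ μ.count eD * tab A (nd μ)

/-- The number `4 i + j` of `F^i D^j`. -/
def code (x : Idx) : ℕ := 4 * (x.1 : ℕ) + (x.2 : ℕ)

lemma N0_00 : ∀ x y z : Idx, N0 (0, 0) {x, y, z} = T3 0 (code x) (code y) (code z) / 4 := by
  decide +kernel

lemma N0_10 : ∀ x y z : Idx, N0 (1, 0) {x, y, z} = T3 1 (code x) (code y) (code z) / 4 := by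
  decide +kernel

lemma N0_20 : ∀ x y z : Idx, N0 (2, 0) {x, y, z} = T3 2 (code x) (code y) (code z) / 4 := by
  decide +kernel

lemma N0_01 : ∀ x y z : Idx, N0 (0, 1) {x, y, z} = T3 3 (code x) (code y) (code z) / 4 := by
  decide +kernel

lemma N0_11 : ∀ x y z : Idx, N0 (1, 1) {x, y, z} = T3 4 (code x) (code y) (code z) / 4 := by
  decide +kernel

lemma N0_21 : ∀ x y z : Idx, N0 (2, 1) {x, y, z} = T3 5 (code x) (code y) (code z) / 4 := by
  decide +kernel

end Pool.Agent.H95.GW
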