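import Pool.Agent.H95.GW.Exists

set_option autoImplicit false

namespace Pool.Agent.H95.GW

lemma sym_of_chk (S : Idx → Idx → Idx → Idx → ℚ) (Z : ℕ → ℕ → ℕ → ℕ → ℤ) (D : ℕ)
    (hS : ∀ x y z w, S x y z w = (Z (code x) (code y) (code z) (code w) : ℚ) / 16)
    (h0 : ∀ x y z w, deg x + deg y + deg z + deg w ≠ D → S x y z w = 0)
    (hchk : ∀ x < 8, ∀ y < 8, ∀ z < 8, ∀ w < 8,
      (z ≤ y ∨ dg x + dg y + dg z + dg w ≠ D) ∨ Z x y z w = Z x z y w)
    (x y z w : Idx) : S x y z w = S x z y w := by
  by_cases hD : deg x + deg y + deg z + deg w = D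
  · have key : ∀ y z : Idx, deg x + deg y + deg z + deg w = D → code y < code z →
        S x y z w = S x z y w := by
      intro y z hD hlt
      rcases hchk (code x) (code_lt x) (code y) (code_lt y) (code z) (code_lt z) (code w)
        (code_lt w) with (h1 | h1) | h1
      · omega
      · exfalso
        apply h1
        have e1 := dg_code x
        have e2 := dg_code y
        have e3 := dg_code z
        have e4 := dg_code w
        rw [← e1, ← e2, ← e3, ← e4] at hD
        exact_mod_cast hD
      · rw [hS, hS, h1]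
    rcases lt_trichotomy (code y) (code z) with h1 | h1 | h1
    · exact key y z hD h1
    · rw [code_inj y z h1]
    · exact (key z y (by rw [← hD]; ring) h1).symm
  · rw [h0 x y z w hD, h0 x z y w (by rw [← add_right_comm (deg x)]; exact hD)]

lemma N0_wdvv (d a : ℕ) (hd : d ≤ 2) (ha : a ≤ 1) (x y z w : Idx) :
    ∑ i ∈ Finset.range (d + 1), ∑ j ∈ Finset.range (a + 1),
      conv N0 ((i : ℤ), (j : ℤ)) ((d : ℤ) - i, (a : ℤ) - j) x y z w =
    ∑ i ∈ Finset.range (d + 1), ∑ j ∈ Finset.range (a + 1),
      conv N0 ((i : ℤ), (j : ℤ)) ((d : ℤ) - i, (a : ℤ) - j) x z y w := by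
  have g00 := N0_00
  have g10 := N0_10
  have g20 := N0_20
  have g01 := N0_01
  have g11 := N0_11
  have g21 := N0_21
  interval_cases d <;> interval_cases a
  · have := sym_of_chk (fun x y z w => conv N0 (0, 0) (0, 0) x y z w)
      (fun x y z w => convZ 0 0 x y z w) 4
      (fun x y z w => conv_N0 _ _ _ _ g00 g00 x y z w)
      (fun x y z w h => conv_N0_zero _ _ x y z w h) chk00 x y z w
    norm_num [Finset.sum_range_succ]
    exact this
  · have := sym_of_chk (fun x y z w => conv N0 (0, 0) (0, 1) x y z w + conv N0 (0, 1) (0, 0) x y z w)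
      (fun x y z w => convZ 0 3 x y z w + convZ 3 0 x y z w) 8
      (fun x y z w => by
        simp only [conv_N0 _ _ _ _ g00 g01, conv_N0 _ _ _ _ g01 g00]
        push_cast
        ring)
      (fun x y z w h => by
        simp only [conv_N0_zero (0, 0) (0, 1) x y z w h, conv_N0_zero (0, 1) (0, 0) x y z w h]
        norm_num) chk01 x y z w
    norm_num [Finset.sum_range_succ]
    exact this
  · have := sym_of_chk (fun x y z w => conv N0 (0, 0) (1, 0) x y z w + conv N0 (1, 0) (0, 0) x y z w)
      (fun x y z w => convZ 0 1 x y z w + convZ 1 0 x y z w) 3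
      (fun x y z w => by
        simp only [conv_N0 _ _ _ _ g00 g10, conv_N0 _ _ _ _ g10 g00]
        push_cast
        ring)
      (fun x y z w h => by
        simp only [conv_N0_zero (0, 0) (1, 0) x y z w h, conv_N0_zero (1, 0) (0, 0) x y z w h]
        norm_num) chk10 x y z w
    norm_num [Finset.sum_range_succ]
    exact this
  · have := sym_of_chk (fun x y z w =>
        conv N0 (0, 0) (1, 1) x y z w + conv N0 (0, 1) (1, 0) x y z w +
        (conv N0 (1, 0) (0, 1) x y z w + conv N0 (1, 1) (0, 0) x y z w))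
      (fun x y z w => convZ 0 4 x y z w + convZ 3 1 x y z w +
        (convZ 1 3 x y z w + convZ 4 0 x y z w)) 7
      (fun x y z w => by
        simp only [conv_N0 _ _ _ _ g00 g11, conv_N0 _ _ _ _ g11 g00, conv_N0 _ _ _ _ g01 g10,
          conv_N0 _ _ _ _ g10 g01]
        push_cast
        ring)
      (fun x y z w h => by
        simp only [conv_N0_zero (0, 0) (1, 1) x y z w h, conv_N0_zero (1, 1) (0, 0) x y z w h,
          conv_N0_zero (0, 1) (1, 0) x y z w h, conv_N0_zero (1, 0) (0, 1) x y z w h]
        norm_num) chk11 x y z w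
    norm_num [Finset.sum_range_succ]
    exact this
  · have := sym_of_chk (fun x y z w => conv N0 (0, 0) (2, 0) x y z w +
        conv N0 (1, 0) (1, 0) x y z w + conv N0 (2, 0) (0, 0) x y z w)
      (fun x y z w => convZ 0 2 x y z w + convZ 1 1 x y z w + convZ 2 0 x y z w) 2
      (fun x y z w => by
        simp only [conv_N0 _ _ _ _ g00 g20, conv_N0 _ _ _ _ g20 g00, conv_N0 _ _ _ _ g10 g10]
        push_cast
        ring)
      (fun x y z w h => by
        simp only [conv_N0_zero (0, 0) (2, 0) x y z w h, conv_N0_zero (2, 0) (0, 0) x y z w h,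
          conv_N0_zero (1, 0) (1, 0) x y z w h]
        norm_num) chk20 x y z w
    norm_num [Finset.sum_range_succ]
    exact this
  · have := sym_of_chk (fun x y z w =>
        conv N0 (0, 0) (2, 1) x y z w + conv N0 (0, 1) (2, 0) x y z w +
        (conv N0 (1, 0) (1, 1) x y z w + conv N0 (1, 1) (1, 0) x y z w) +
        (conv N0 (2, 0) (0, 1) x y z w + conv N0 (2, 1) (0, 0) x y z w))
      (fun x y z w => convZ 0 5 x y z w + convZ 3 2 x y z w +
        (convZ 1 4 x y z w + convZ 4 1 x y z w) +
        (convZ 2 3 x y z w + convZ 5 0 x y z w)) 6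
      (fun x y z w => by
        simp only [conv_N0 _ _ _ _ g00 g21, conv_N0 _ _ _ _ g21 g00, conv_N0 _ _ _ _ g01 g20,
          conv_N0 _ _ _ _ g20 g01, conv_N0 _ _ _ _ g10 g11, conv_N0 _ _ _ _ g11 g10]
        push_cast
        ring)
      (fun x y z w h => by
        simp only [conv_N0_zero (0, 0) (2, 1) x y z w h, conv_N0_zero (2, 1) (0, 0) x y z w h,
          conv_N0_zero (0, 1) (2, 0) x y z w h, conv_N0_zero (2, 0) (0, 1) x y z w h,
          conv_N0_zero (1, 0) (1, 1) x y z w h, conv_N0_zero (1, 1) (1, 0) x y z w h]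
        norm_num) chk21 x y z w
    norm_num [Finset.sum_range_succ]
    exact this

/-- The axioms `GenusZero` are satisfiable. -/
theorem genusZero_N0 : GenusZero N0 where
  effective := N0_eff
  degree := N0_deg
  zero := N0_zero
  unit := N0_unit
  divF := N0_divF
  divD := N0_divD
  wdvv := fun d a hd ha x y z w => by
    rw [sum_eq_conv, sum_eq_conv]
    exact N0_wdvv d a hd ha x y z w
  countB := by decide +kernel
  countLine := by decide +kernel

end Pool.Agent.H95.GW
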