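import Pool.Agent.H95.GW.Basic
import Pool.Agent.H95.GW.TZ

set_option autoImplicit false
set_option linter.style.longLine false

/-!
A table of numbers which satisfies the axioms `GenusZero`: the genus-zero Gromov-Witten numbers of
`X` in the classes `d B + a f`, `d ≤ 2`, `a ≤ 1`.
-/

namespace Pool.Agent.H95.GW

/-- The non-zero numbers without inputs of degree 0 or 1. -/
def tabL : List ((ℤ × ℤ) × Multiset Idx × ℚ) :=
  [((1, 0), 0, 1),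
    ((0, 1), {(0, 3), (1, 3)}, 1),
    ((0, 1), {(0, 2), (0, 2), (1, 3)}, 1),
    ((0, 1), {(0, 2), (0, 3), (0, 3)}, -2),
    ((0, 1), {(0, 2), (0, 3), (1, 2)}, 1),
    ((0, 1), {(0, 3), (0, 3), (1, 1)}, 1),
    ((1, 1), {(0, 2), (0, 2), (0, 3)}, 2),
    ((1, 1), {(0, 2), (0, 2), (1, 2)}, -1),
    ((1, 1), {(0, 2), (0, 3), (1, 1)}, -1),
    ((1, 1), {(0, 2), (1, 3)}, -1),
    ((1, 1), {(0, 3), (0, 3)}, 1),
    ((1, 1), {(0, 3), (1, 2)}, -1),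
    ((1, 1), {(1, 1), (1, 1), (1, 2)}, 1),
    ((1, 1), {(1, 1), (1, 3)}, 1),
    ((1, 1), {(1, 2), (1, 2)}, 1),
    ((2, 1), {(0, 2), (0, 2), (0, 2)}, -3 / 4),
    ((2, 1), {(0, 2), (0, 2), (1, 1)}, 1 / 4),
    ((2, 1), {(0, 2), (0, 3)}, -1 / 2),
    ((2, 1), {(0, 2), (1, 2)}, 1 / 4),
    ((2, 1), {(0, 3), (1, 1)}, 1 / 4),
    ((2, 1), {(1, 3)}, 1 / 4)]

end Pool.Agent.H95.GW
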