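import Pool.Agent.H95.GW.Basic

set_option autoImplicit false

namespace Pool.Agent.H95.GW

variable {N : ℤ × ℤ → Multiset Idx → ℚ}

lemma GenusZero.w11 (h : GenusZero N) (x y z w : Idx) :
    conv N (0, 0) (1, 1) x y z w + conv N (0, 1) (1, 0) x y z w +
      (conv N (1, 0) (0, 1) x y z w + conv N (1, 1) (0, 0) x y z w) =
    conv N (0, 0) (1, 1) x z y w + conv N (0, 1) (1, 0) x z y w +
      (conv N (1, 0) (0, 1) x z y w + conv N (1, 1) (0, 0) x z y w) := by
  have := h.wdvv' 1 1 (by norm_num) le_rfl x y z w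
  norm_num [Finset.sum_range_succ] at this
  exact this

lemma GenusZero.w21 (h : GenusZero N) (x y z w : Idx) :
    conv N (0, 0) (2, 1) x y z w + conv N (0, 1) (2, 0) x y z w +
      (conv N (1, 0) (1, 1) x y z w + conv N (1, 1) (1, 0) x y z w) +
      (conv N (2, 0) (0, 1) x y z w + conv N (2, 1) (0, 0) x y z w) =
    conv N (0, 0) (2, 1) x z y w + conv N (0, 1) (2, 0) x z y w +
      (conv N (1, 0) (1, 1) x z y w + conv N (1, 1) (1, 0) x z y w) +
      (conv N (2, 0) (0, 1) x z y w + conv N (2, 1) (0, 0) x z y w) := by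
  have := h.wdvv' 2 1 le_rfl le_rfl x y z w
  norm_num [Finset.sum_range_succ] at this
  exact this

end Pool.Agent.H95.GW
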